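import Pool.Agent.Helper61_LT.Stmts
import Pool.Agent.Helper61_LT.Tools

/-!
# LT, module EMS: the coarse complex
-/

set_option autoImplicit false
set_option linter.unusedSectionVars false

namespace Pool.Agent.LT.H55

open Matrix

/-- A sublist with one element less is obtained by deleting an entry. -/
theorem del_one {A : Type} : ∀ (l' l : List A), l'.Sublist l → l'.length + 1 = l.length →
    ∃ (i : ℕ) (w : A), i ≤ l'.length ∧ w ∈ l ∧ l = l'.take i ++ w :: l'.drop i := by
  intro l' l h
  induction h with
  | slnil => intro h; simp at h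
  | cons a h ih =>
    rename_i l1 l2
    intro hl
    have hl2 : l1.length = l2.length := by simpa using hl
    have := h.eq_of_length hl2
    subst this
    exact ⟨0, a, Nat.zero_le _, by simp, by simp⟩
  | cons_cons a h ih =>
    rename_i l1 l2
    intro hl
    obtain ⟨i, w, hi, hw, he⟩ := ih (by simpa using hl)
    refine ⟨i + 1, w, by simpa using hi, by simp [hw], ?_⟩
    simp [← he]

variable {G V : Type} [Group G]

/-- Faces of simplices are simplices. -/
theorem face_mem {a : V → G → V} {S : Finset G} {c : V → V} {n : ℕ} {l l' : List V}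
    (hl : l ∈ Im a S c n) (h : l'.Sublist l) (hn : l' ≠ []) : l' ∈ Im a S c n := by
  obtain ⟨_, h2, l0, h0, rfl⟩ := hl
  refine ⟨hn, h.length_le.trans h2, ?_⟩
  rw [List.sublist_map_iff] at h
  obtain ⟨l1, h1, rfl⟩ := h
  exact ⟨l1, fun u hu w hw => h0 u (h1.subset hu) w (h1.subset hw), rfl⟩

theorem lbd_nil {A : Type} : lbd ([] : List A) = 0 := rfl

/-- A sum over a finite set of lists, of the values of a finitely supported function. -/
theorem sum_abs_le {T : Set (List V)} [Fintype T] (z : List V →₀ ℤ) :
    ∑ l : T, |(z l.1 : ℝ)| ≤ ((z.sum fun _ k => |k| : ℤ) : ℝ) := by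
  classical
  have h1 : ∑ l : T, |(z l.1 : ℝ)| = ∑ l ∈ T.toFinset, |(z l : ℝ)| := by
    rw [← Finset.sum_coe_sort T.toFinset]
    apply Fintype.sum_equiv (Equiv.setCongr (by simp) : T ≃ (↑T.toFinset : Set (List V)))
    intro x
    rfl
  have h2 : ((z.sum fun _ k => |k| : ℤ) : ℝ) = ∑ l ∈ z.support, |(z l : ℝ)| := by
    rw [Finsupp.sum]
    push_cast
    rfl
  rw [h1, h2]
  rw [← Finset.sum_filter_ne_zero]
  apply Finset.sum_le_sum_of_subset_of_nonneg
  · intro l hl
    rw [Finset.mem_filter] at hl
    rw [Finsupp.mem_support_iff]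
    intro h
    apply hl.2
    rw [h]
    simp
  · intro _ _ _
    exact abs_nonneg _

theorem ems (hL : LstStmt) (hS : SchStmt) : EmsStmt := by
  intro G _ S Q n
  refine ⟨(n + 1) * ((n + 1) * (Q.card * S.card)) + (n + 1), ?_, ?_⟩
  · have h1 : (0 : ℝ) ≤ (n + 1) * ((n + 1) * (Q.card * S.card)) := by positivity
    have h2 : (1 : ℝ) ≤ n + 1 := by
      have : (0 : ℝ) ≤ n := Nat.cast_nonneg n
      linarith
    linarith
  intro V _ a c _ hbij hc
  obtain ⟨hsq, _, _, _, hsup, _, hsum, _⟩ := hL V V
  -- column sums
  have hcol : ∀ l : Im a S c n, ∑ l' : Im a S c n, |(eM a S c n l' l : ℝ)| ≤ (n : ℝ) + 1 := by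
    intro l
    refine (sum_abs_le (T := Im a S c n) (lbd l.1)).trans ?_
    have h1 := hsum l.1
    have h2 : l.1.length ≤ n + 1 := l.2.2.1
    have h3 : ((lbd l.1).sum fun _ k => |k|) ≤ ((n + 1 : ℕ) : ℤ) := h1.trans (by exact_mod_cast h2)
    exact_mod_cast h3
  have hent : ∀ l' l : Im a S c n, |(eM a S c n l' l : ℝ)| ≤ (n : ℝ) + 1 := by
    intro l' l
    refine le_trans ?_ (hcol l)
    exact Finset.single_le_sum (f := fun l' => |(eM a S c n l' l : ℝ)|)
      (fun _ _ => abs_nonneg _) (Finset.mem_univ l')
  refine ⟨?_, ?_, ?_, ?_⟩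
  · -- square zero
    ext l'' l
    rw [Matrix.mul_apply, Matrix.zero_apply]
    have h1 := DFunLike.congr_fun (hsq l.1) l''.1
    rw [lin, Finsupp.sum, Finsupp.finsetSum_apply] at h1
    simp only [Finsupp.smul_apply, Finsupp.coe_zero, Pi.zero_apply, smul_eq_mul] at h1
    rw [← h1]
    classical
    have h2 : ∑ l' : Im a S c n, eM a S c n l'' l' * eM a S c n l' l =
        ∑ l' ∈ (Im a S c n).toFinset, lbd l.1 l' * lbd l' l''.1 := by
      rw [← Finset.sum_coe_sort (Im a S c n).toFinset]
      apply Fintype.sum_equiv (Equiv.setCongr (by simp) :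
        Im a S c n ≃ (↑(Im a S c n).toFinset : Set (List V)))
      intro x
      exact mul_comm _ _
    rw [h2]
    have h3 : ∀ (s : Finset (List V)) (F : List V → ℤ), ∑ x ∈ s with F x ≠ 0, F x = ∑ x ∈ s, F x :=
      fun s F => Finset.sum_filter_ne_zero s
    rw [← h3, ← h3 (lbd l.1).support]
    apply Finset.sum_congr _ fun _ _ => rfl
    ext l'
    simp only [Finset.mem_filter, Set.mem_toFinset, Finsupp.mem_support_iff, and_congr_left_iff]
    intro h4
    have h5 : lbd l.1 l' ≠ 0 := left_ne_zero_of_mul h4
    have h6 : lbd l' l''.1 ≠ 0 := right_ne_zero_of_mul h4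
    refine ⟨fun _ => h5, fun _ => ?_⟩
    refine face_mem l.2 (hsup l.1 l' (by simpa using h5)).1 ?_
    rintro rfl
    rw [lbd_nil] at h6
    exact h6 rfl
  · -- homogeneous
    intro l' l h
    have h1 : lbd l.1 l'.1 ≠ 0 := by
      intro h2
      apply h
      simp only [cst, Matrix.map_apply, eM, h2]
      simp
    have h2 := (hsup l.1 l'.1 (by simpa using h1)).2
    have h3 : l'.1.length ≠ 0 := by
      have := l'.2.1
      simpa using this
    simp only [ldg]
    omega
  · -- norm
    apply hS
    · intro l'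
      classical
      -- the possible cofaces
      have hinv : ∀ q : G, ∃ f : V → V, ∀ v u, a u q = v → u = f v := by
        intro q
        refine ⟨Function.surjInv (hbij q).2, ?_⟩
        intro v u h
        apply (hbij q).1
        have := Function.surjInv_eq (hbij q).2 v
        simp only at this ⊢
        rw [this, h]
      choose iv hiv using hinv
      let v' : V := l'.1.head l'.2.1
      let T : Finset (List V) := ((Finset.range (n + 1)) ×ˢ (Q ×ˢ S)).image fun p =>
        l'.1.take p.1 ++ c (a (iv p.2.1 v') p.2.2) :: l'.1.drop p.1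
      have hT : ∀ l : Im a S c n, eM a S c n l' l ≠ 0 → l.1 ∈ T := by
        intro l hne
        have h1 : lbd l.1 l'.1 ≠ 0 := hne
        obtain ⟨h2, h3⟩ := hsup l.1 l'.1 (by simpa using h1)
        obtain ⟨i, w, hi, hw, he⟩ := del_one _ _ h2 h3
        obtain ⟨hl1, hl2, l0, hl0, hl3⟩ := l.2
        have hv' : v' ∈ l.1 := h2.subset (List.head_mem _)
        rw [hl3, List.mem_map] at hw hv'
        obtain ⟨u, hu, rfl⟩ := hw
        obtain ⟨u', hu', hv2⟩ := hv'
        obtain ⟨s, hs, hus⟩ := hl0 u' hu' u hu
        obtain ⟨q, hq, hcq⟩ := hc u'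
        have h4 : u' = iv q v' := hiv q v' u' (by rw [← hcq, hv2])
        rw [Finset.mem_image]
        refine ⟨(i, (q, s)), ?_, ?_⟩
        · simp only [Finset.mem_product, Finset.mem_range]
          refine ⟨?_, hq, hs⟩
          have : l.1.length ≤ n + 1 := hl2
          omega
        · simp only
          rw [← h4, ← hus]
          exact he.symm
      have hTc : T.card ≤ (n + 1) * (Q.card * S.card) := by
        refine Finset.card_image_le.trans ?_
        simp
      have h5 : ∑ l : Im a S c n, |(eM a S c n l' l : ℝ)| ≤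
          ∑ l : Im a S c n, if l.1 ∈ T then ((n : ℝ) + 1) else 0 := by
        apply Finset.sum_le_sum
        intro l _
        split_ifs with h
        · exact hent l' l
        · have : eM a S c n l' l = 0 := by
            by_contra h6
            exact h (hT l h6)
          rw [this]
          simp
      refine h5.trans ?_
      rw [← Finset.sum_filter, Finset.sum_const, nsmul_eq_mul]
      have h6 : (Finset.univ.filter fun l : Im a S c n => l.1 ∈ T).card ≤ T.card := by
        apply Finset.card_le_card_of_injOn (fun l => l.1)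
        · intro l hl
          simpa using hl
        · intro l _ l2 _ h
          exact Subtype.ext h
      have h7 : ((Finset.univ.filter fun l : Im a S c n => l.1 ∈ T).card : ℝ) ≤
          (n + 1) * (Q.card * S.card) := by
        exact_mod_cast h6.trans hTc
      have h8 : (0 : ℝ) ≤ (n : ℝ) + 1 := by positivity
      nlinarith [mul_le_mul_of_nonneg_right h7 h8]
    · intro l
      refine (hcol l).trans ?_
      have h1 : (0 : ℝ) ≤ (n + 1) * ((n + 1) * (Q.card * S.card)) := by positivity
      linarith
  · -- Hilbert-Schmidt norm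
    have h1 : ∀ l : Im a S c n, ∑ l' : Im a S c n, (eM a S c n l' l : ℝ) ^ 2 ≤
        ((n : ℝ) + 1) ^ 2 := by
      intro l
      have h2 : ∑ l' : Im a S c n, (eM a S c n l' l : ℝ) ^ 2 ≤
          ∑ l' : Im a S c n, ((n : ℝ) + 1) * |(eM a S c n l' l : ℝ)| := by
        apply Finset.sum_le_sum
        intro l' _
        rw [← sq_abs, sq]
        exact mul_le_mul_of_nonneg_right (hent l' l) (abs_nonneg _)
      refine h2.trans ?_
      rw [← Finset.mul_sum, sq]
      exact mul_le_mul_of_nonneg_left (hcol l) (by positivity)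
    unfold HS
    rw [Finset.sum_comm]
    refine (Finset.sum_le_sum fun l _ => h1 l).trans ?_
    rw [Finset.sum_const, nsmul_eq_mul, Finset.card_univ, ← Nat.card_eq_fintype_card,
      Nat.card_coe_set_eq, mul_comm]

end Pool.Agent.LT.H55
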