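import Pool.Agent.Helper61_LT.Stmts
import Pool.Agent.Helper61_LT.Tools

/-!
# LT, module FIN: the data of the finite model
-/

set_option autoImplicit false

namespace Pool.Agent.LT.H55

open Matrix

theorem fin (hBar : BarStmt) (hDvs : DvsStmt) (hEms : EmsStmt) (hFms : FmsStmt)
    (hHms : HmsStmt) (hTms : TmsStmt) : FinStmt := by
  classical
  intro G _ C n hn
  obtain ⟨φ, ψ, θ, hB⟩ := hBar G C
  obtain ⟨Sf, hf⟩ := hFms G C φ ψ θ hB n hn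
  obtain ⟨St, ht⟩ := hTms G C φ ψ θ hB n hn
  refine ⟨Sf ∪ St, ?_⟩
  intro Q
  obtain ⟨Ke, hKe, he⟩ := hEms G (Sf ∪ St) Q n
  obtain ⟨Kf, Rf, hKf, hf⟩ := hf (Sf ∪ St) Q Finset.subset_union_left
  obtain ⟨Ph, hh⟩ := hHms G C φ ψ θ hB n hn (Sf ∪ St) Q
  obtain ⟨Pt, ht⟩ := ht (Sf ∪ St) Q Finset.subset_union_right
  obtain ⟨Kh, Rh, hKh, hh⟩ := hh (Ph ∪ Pt) Finset.subset_union_left
  obtain ⟨Kt, Rt, hKt, ht⟩ := ht (Ph ∪ Pt) Finset.subset_union_right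
  obtain ⟨Kd, Rd, hKd, hd⟩ := hDvs G C
  have hR1 : Rf ⊆ Rf ∪ Rh ∪ Rt ∪ Rd := fun x hx => by simp [hx]
  have hR2 : Rh ⊆ Rf ∪ Rh ∪ Rt ∪ Rd := fun x hx => by simp [hx]
  have hR3 : Rt ⊆ Rf ∪ Rh ∪ Rt ∪ Rd := fun x hx => by simp [hx]
  have hR4 : Rd ⊆ Rf ∪ Rh ∪ Rt ∪ Rd := fun x hx => by simp [hx]
  obtain ⟨Mf, hf⟩ := hf _ hR1
  obtain ⟨Mh, hh⟩ := hh _ hR2
  obtain ⟨Mt, ht⟩ := ht _ hR3
  have hd := hd _ hR4
  refine ⟨Ke + Kf + Kh + Kt + Kd, Rf ∪ Rh ∪ Rt ∪ Rd, by linarith, Mf + Mh + Mt, ?_⟩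
  intro V _ _ a c _ hbij hc
  obtain ⟨hd1, hd2, hd3⟩ := hd V a hbij
  obtain ⟨he1, he2, he3, he4⟩ := he V a c hbij hc
  obtain ⟨hf1, hf2, hf3⟩ := hf V a c hbij hc
  obtain ⟨hh1, hh2, hh3⟩ := hh V a c hbij hc
  obtain ⟨ht1, ht2, ht3⟩ := ht V a c hbij hc
  refine ⟨eM a (Sf ∪ St) c n, fM C φ a (Rf ∪ Rh ∪ Rt ∪ Rd) (Sf ∪ St) c n,
    hM C ψ a (Ph ∪ Pt) (Rf ∪ Rh ∪ Rt ∪ Rd) (Sf ∪ St) c n,
    tM C φ ψ θ a (Ph ∪ Pt) (Rf ∪ Rh ∪ Rt ∪ Rd) c, ?_, he4⟩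
  have hM1 : Mf * nb a (Rf ∪ Rh ∪ Rt ∪ Rd) ≤ (Mf + Mh + Mt) * nb a (Rf ∪ Rh ∪ Rt ∪ Rd) :=
    Nat.mul_le_mul_right _ (by omega)
  have hM2 : Mh * nb a (Rf ∪ Rh ∪ Rt ∪ Rd) ≤ (Mf + Mh + Mt) * nb a (Rf ∪ Rh ∪ Rt ∪ Rd) :=
    Nat.mul_le_mul_right _ (by omega)
  have hM3 : Mt * nb a (Rf ∪ Rh ∪ Rt ∪ Rd) ≤ (Mf + Mh + Mt) * nb a (Rf ∪ Rh ∪ Rt ∪ Rd) :=
    Nat.mul_le_mul_right _ (by omega)
  exact
    { le := fun x => hn x.2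
      gd := hd2
      ge := he2
      gf := hf1
      gh := hh1
      gt := ht1
      dd0 := hd1
      ee0 := he1
      bd := hd3.mono (by linarith) (by linarith)
      be := he3.mono (by linarith) (by linarith)
      bf := hf2.mono (by linarith) (by linarith)
      bh := hh2.mono (by linarith) (by linarith)
      bt := ht2.mono (by linarith) (by linarith)
      fd := hf3.trans hM1
      hd := hh3.trans hM2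
      ho := by
        refine le_trans (le_of_eq ?_) (ht3.trans hM3)
        rfl }

end Pool.Agent.LT.H55
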