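import Pool.Agent.Helper55_LT.Ems

/-!
# LT, module HMS: the chain map `h`
-/

set_option autoImplicit false
set_option linter.unusedSectionVars false

namespace Pool.Agent.LT.H55

open Matrix

variable {G V : Type} [Group G]

/-- Sums over the faces of a simplex. -/
theorem sum_face (hL : LstStmt) {a : V → G → V} {S : Finset G} {c : V → V} {n : ℕ}
    [Fintype (Im a S c n)] (l : Im a S c n) (F : List V → ℤ) (hF : F [] = 0) :
    ∑ l' : Im a S c n, F l'.1 * eM a S c n l' l = (lbd l.1).sum fun l' k => k * F l' := by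
  classical
  obtain ⟨_, _, _, _, hsup, _, _, _⟩ := hL V V
  have h2 : ∑ l' : Im a S c n, F l'.1 * eM a S c n l' l =
      ∑ l' ∈ (Im a S c n).toFinset, lbd l.1 l' * F l' := by
    rw [← Finset.sum_coe_sort (Im a S c n).toFinset]
    apply Fintype.sum_equiv (Equiv.setCongr (by simp) :
      Im a S c n ≃ (↑(Im a S c n).toFinset : Set (List V)))
    intro x
    exact mul_comm _ _
  rw [h2, Finsupp.sum]
  have h3 : ∀ (s : Finset (List V)) (F : List V → ℤ), ∑ x ∈ s with F x ≠ 0, F x = ∑ x ∈ s, F x :=
    fun s F => Finset.sum_filter_ne_zero s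
  rw [← h3, ← h3 (lbd l.1).support]
  apply Finset.sum_congr _ fun _ _ => rfl
  ext l'
  simp only [Finset.mem_filter, Set.mem_toFinset, Finsupp.mem_support_iff, and_congr_left_iff]
  intro h4
  have h5 : lbd l.1 l' ≠ 0 := left_ne_zero_of_mul h4
  have h6 : F l' ≠ 0 := right_ne_zero_of_mul h4
  refine ⟨fun _ => h5, fun _ => ?_⟩
  refine face_mem l.2 (hsup l.1 l' (by simpa using h5)).1 ?_
  rintro rfl
  exact h6 hF

/-- Lists of length at most `k` with entries in `P`. -/
def LL [DecidableEq G] (P : Finset G) : ℕ → Finset (List G)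
  | 0 => {[]}
  | k + 1 => {[]} ∪ (P ×ˢ LL P k).image fun p => p.1 :: p.2

theorem mem_LL [DecidableEq G] (P : Finset G) : ∀ (k : ℕ) (l : List G),
    l ∈ LL P k ↔ l.length ≤ k ∧ ∀ x ∈ l, x ∈ P := by
  intro k
  induction k with
  | zero =>
    intro l
    simp only [LL, Finset.mem_singleton]
    constructor
    · rintro rfl
      simp
    · rintro ⟨h, _⟩
      exact List.eq_nil_of_length_eq_zero (Nat.le_zero.mp h)
  | succ k ih =>
    intro l
    simp only [LL, Finset.mem_union, Finset.mem_singleton, Finset.mem_image, Finset.mem_product,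
      Prod.exists]
    constructor
    · rintro (rfl | ⟨x, l', ⟨hx, hl'⟩, rfl⟩)
      · simp
      · rw [ih] at hl'
        refine ⟨by simpa using hl'.1, ?_⟩
        intro y hy
        rw [List.mem_cons] at hy
        rcases hy with rfl | hy
        · exact hx
        · exact hl'.2 y hy
    · rintro ⟨h1, h2⟩
      cases l with
      | nil => exact Or.inl rfl
      | cons x l' =>
        refine Or.inr ⟨x, l', ⟨h2 x (by simp), ?_⟩, rfl⟩
        rw [ih]
        exact ⟨by simpa using h1, fun y hy => h2 y (by simp [hy])⟩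

/-- The norm of a push forward. -/
theorem sum_map_le {A B : Type} [Fintype B] (f : A → B) (z : A →₀ ℤ) :
    ∑ b, |((z.mapDomain f b : ℤ) : ℝ)| ≤ ∑ p ∈ z.support, |(z p : ℝ)| := by
  classical
  have h1 : ∀ b, ((z.mapDomain f b : ℤ) : ℝ) = ∑ p ∈ z.support, if f p = b then (z p : ℝ) else 0 := by
    intro b
    rw [Finsupp.mapDomain, Finsupp.sum, Finsupp.finsetSum_apply]
    push_cast
    apply Finset.sum_congr rfl
    intro p _
    rw [Finsupp.single_apply]
    split_ifs <;> simp
  calc ∑ b, |((z.mapDomain f b : ℤ) : ℝ)|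
      ≤ ∑ b, ∑ p ∈ z.support, |if f p = b then (z p : ℝ) else 0| := by
        apply Finset.sum_le_sum
        intro b _
        rw [h1]
        exact Finset.abs_sum_le_sum_abs _ _
    _ = ∑ p ∈ z.support, ∑ b, |if f p = b then (z p : ℝ) else 0| := Finset.sum_comm
    _ = ∑ p ∈ z.support, |(z p : ℝ)| := by
        apply Finset.sum_congr rfl
        intro p _
        rw [Finset.sum_eq_single (f p)]
        · simp
        · intro b _ hb
          rw [if_neg (Ne.symm hb), abs_zero]
        · intro h
          exact absurd (Finset.mem_univ _) h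

/-- A nonzero value of a push forward. -/
theorem exists_of_map {A B : Type} (f : A → B) (z : A →₀ ℤ) (b : B) (h : z.mapDomain f b ≠ 0) :
    ∃ p ∈ z.support, f p = b := by
  classical
  have h1 : b ∈ (z.mapDomain f).support := by simpa using h
  have h2 := Finsupp.mapDomain_support h1
  simpa using h2

/-- The shape of the nonzero values of `hL`. -/
theorem hL_form {C : Res G} {ψ : List G → (G × C.X →₀ ℤ)} {a : V → G → V} {P R : Finset G}
    {l : List V} (h : hL C ψ a P R l ≠ 0) : ∃ (w : V) (gs : List G), (∀ g ∈ gs, g ∈ P) ∧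
    l = w :: gs.map (a w) ∧ hL C ψ a P R l = bet a w (ψ (1 :: gs)) := by
  cases l with
  | nil => exact absurd rfl h
  | cons w l =>
    rw [hL] at h ⊢
    split_ifs at h ⊢ with h1
    · exact ⟨w, h1.2.choose, h1.2.choose_spec.1, congrArg _ h1.2.choose_spec.2, rfl⟩
    · exact absurd rfl h

open Classical in
theorem hms (hLC : HlcStmt) (hLs : LstStmt) (hS : SchStmt) (hG : GdnStmt) : HmsStmt := by
  intro G _ C φ ψ θ hB n hn S Q
  let S1 : Finset G := insert 1 S
  let P0 : Finset G := ((Q ×ˢ S1) ×ˢ (S1 ×ˢ Q)).image fun p =>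
    p.1.1⁻¹ * p.1.2⁻¹ * p.2.1 * p.2.2
  have h1S : (1 : G) ∈ S1 := Finset.mem_insert_self 1 S
  have hSS : ∀ s ∈ S, s ∈ S1 := fun s hs => Finset.mem_insert_of_mem hs
  have hP0 : ∀ q1 ∈ Q, ∀ s1 ∈ S1, ∀ s2 ∈ S1, ∀ q2 ∈ Q, q1⁻¹ * s1⁻¹ * s2 * q2 ∈ P0 := by
    intro q1 h1 s1 h2 s2 h3 q2 h4
    exact Finset.mem_image.mpr ⟨((q1, s1), (s2, q2)), Finset.mem_product.mpr
      ⟨Finset.mem_product.mpr ⟨h1, h2⟩, Finset.mem_product.mpr ⟨h3, h4⟩⟩, rfl⟩
  clear_value P0 S1
  refine ⟨P0, ?_⟩
  intro P hP
  obtain ⟨RH, hPR, hRH⟩ := hLC G C φ ψ θ hB n hn P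
  -- constants
  let Kp : ℝ := ∑ gs ∈ LL P n, ∑ p ∈ (ψ (1 :: gs)).support, |(ψ (1 :: gs) p : ℝ)|
  let Np : ℕ := ∑ gs ∈ LL P n, (ψ (1 :: gs)).support.card
  have hKp : 0 ≤ Kp := Finset.sum_nonneg fun _ _ => Finset.sum_nonneg fun _ _ => abs_nonneg _
  have hKp1 : ∀ gs ∈ LL P n, ∑ p ∈ (ψ (1 :: gs)).support, |(ψ (1 :: gs) p : ℝ)| ≤ Kp := by
    intro gs hgs
    exact Finset.single_le_sum
      (f := fun gs => ∑ p ∈ (ψ (1 :: gs)).support, |(ψ (1 :: gs) p : ℝ)|)
      (fun _ _ => Finset.sum_nonneg fun _ _ => abs_nonneg _) hgs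
  have hNp : ∑ gs ∈ LL P n, (ψ (1 :: gs)).support.card = Np := rfl
  clear_value Kp Np
  have hKN : 0 ≤ Kp * Np := mul_nonneg hKp (Nat.cast_nonneg _)
  refine ⟨Kp * Np + Kp + 1, RH ∪ S ∪ Q, ?_, ?_⟩
  · linarith
  intro R' hR'
  have hR1 : RH ⊆ R' := fun x hx => hR' (by simp [hx])
  have hR2 : S ⊆ R' := fun x hx => hR' (by simp [hx])
  have hR3 : Q ⊆ R' := fun x hx => hR' (by simp [hx])
  obtain ⟨⟨MG, hMG⟩, _⟩ := hG G R' (n + 2)
  refine ⟨(1 + Q.card * MG) * (LL S n).card, ?_⟩
  intro V _ _ a c _ hbij hc
  obtain ⟨_, _, _, _, hsup, _, _, _⟩ := hLs V V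
  have hinv : ∀ q : G, ∃ f : V → V, ∀ v u, a u q = v → u = f v := by
    intro q
    refine ⟨Function.surjInv (hbij q).2, ?_⟩
    intro v u h
    apply (hbij q).1
    have := Function.surjInv_eq (hbij q).2 v
    simp only at this ⊢
    rw [this, h]
  choose iv hiv using hinv
  -- shape of the nonzero columns
  have hform : ∀ l : Im a S c n, hL C ψ a P R' l.1 ≠ 0 → ∃ (w : V) (gs : List G), gs ∈ LL P n ∧
      l.1 = w :: gs.map (a w) ∧ hL C ψ a P R' l.1 = bet a w (ψ (1 :: gs)) := by
    intro l h
    obtain ⟨w, gs, h1, h2, h3⟩ := hL_form h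
    refine ⟨w, gs, ?_, h2, h3⟩
    rw [mem_LL]
    refine ⟨?_, h1⟩
    have h4 : l.1.length ≤ n + 1 := l.2.2.1
    rw [h2] at h4
    simpa using h4
  have hcol : ∀ l : Im a S c n, ∑ v, |(hM C ψ a P R' S c n v l : ℝ)| ≤ Kp := by
    intro l
    by_cases h : hL C ψ a P R' l.1 = 0
    · have : ∀ v, (hM C ψ a P R' S c n v l : ℝ) = 0 := by
        intro v
        simp only [hM, h]
        simp
      simp only [this, abs_zero, Finset.sum_const_zero]
      exact hKp
    · obtain ⟨w, gs, h1, h2, h3⟩ := hform l h
      refine le_trans ?_ (hKp1 gs h1)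
      have h4 : ∀ v, (hM C ψ a P R' S c n v l : ℝ) =
          (((ψ (1 :: gs)).mapDomain (fun p : G × C.X => (a w p.1, p.2)) v : ℤ) : ℝ) := by
        intro v
        simp only [hM, h3, bet]
      simp only [h4]
      exact sum_map_le _ _
  have hent : ∀ (v : V × C.X) (l : Im a S c n), |(hM C ψ a P R' S c n v l : ℝ)| ≤ Kp := by
    intro v l
    refine le_trans ?_ (hcol l)
    exact Finset.single_le_sum (f := fun v => |(hM C ψ a P R' S c n v l : ℝ)|)
      (fun _ _ => abs_nonneg _) (Finset.mem_univ v)
  refine ⟨?_, ?_, ?_⟩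
  · -- homogeneous
    intro v l h
    have h1 : hL C ψ a P R' l.1 v ≠ 0 := by
      intro h2
      apply h
      simp only [cst, Matrix.map_apply, hM, h2]
      simp
    have h2 : hL C ψ a P R' l.1 ≠ 0 := by
      intro h3
      rw [h3] at h1
      exact h1 rfl
    obtain ⟨w, gs, h3, h4, h5⟩ := hform l h2
    rw [h5] at h1
    obtain ⟨p, hp, hpv⟩ := exists_of_map _ _ _ h1
    have h6 := hB.lψ _ p hp
    have h7 : v.2 = p.2 := by rw [← hpv]
    simp only [ldg]
    rw [h4, h7]
    simp only [List.length_cons, List.length_map] at h6 ⊢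
    omega
  · -- norm
    apply hS
    · intro v
      let T : Finset (List V) := (LL P n).biUnion fun gs => (ψ (1 :: gs)).support.image fun p =>
        iv p.1 v.1 :: gs.map (a (iv p.1 v.1))
      have hT : ∀ l : Im a S c n, hM C ψ a P R' S c n v l ≠ 0 → l.1 ∈ T := by
        intro l hne
        have h1 : hL C ψ a P R' l.1 v ≠ 0 := hne
        have h2 : hL C ψ a P R' l.1 ≠ 0 := by
          intro h3
          rw [h3] at h1
          exact h1 rfl
        obtain ⟨w, gs, h3, h4, h5⟩ := hform l h2
        rw [h5] at h1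
        obtain ⟨p, hp, hpv⟩ := exists_of_map _ _ _ h1
        have h6 : w = iv p.1 v.1 := hiv p.1 v.1 w (by rw [← hpv])
        rw [Finset.mem_biUnion]
        refine ⟨gs, h3, ?_⟩
        rw [Finset.mem_image]
        exact ⟨p, hp, by rw [← h6, h4]⟩
      have hTc : T.card ≤ Np := by
        rw [← hNp]
        refine Finset.card_biUnion_le.trans ?_
        exact Finset.sum_le_sum fun gs _ => Finset.card_image_le
      clear_value T
      have h5 : ∑ l : Im a S c n, |(hM C ψ a P R' S c n v l : ℝ)| ≤
          ∑ l : Im a S c n, if l.1 ∈ T then Kp else 0 := by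
        apply Finset.sum_le_sum
        intro l _
        split_ifs with h
        · exact hent v l
        · have : hM C ψ a P R' S c n v l = 0 := by
            by_contra h6
            exact h (hT l h6)
          rw [this]
          simp
      refine h5.trans ?_
      rw [← Finset.sum_filter, Finset.sum_const, nsmul_eq_mul]
      have h6 : (Finset.univ.filter fun l : Im a S c n => l.1 ∈ T).card ≤ T.card := by
        apply Finset.card_le_card_of_injOn (fun l => l.1)
        · intro l hl
          simpa using hl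
        · intro l _ l2 _ h
          exact Subtype.ext h
      have h7 : ((Finset.univ.filter fun l : Im a S c n => l.1 ∈ T).card : ℝ) ≤ Np := by
        exact_mod_cast h6.trans hTc
      nlinarith [mul_le_mul_of_nonneg_right h7 hKp]
    · intro l
      refine (hcol l).trans ?_
      linarith
  · -- rank
    -- bad points
    let B1 : Finset V := Finset.univ.filter fun u => u ∉ Gd a R'
    let B2 : Finset V := Finset.univ.filter fun u => c u ∉ Gdn a R' (n + 2)
    let B : Finset V := B1 ∪ B2
    let sing : Finset (List V) := (B ×ˢ LL S n).image fun p => (p.1 :: p.2.map (a p.1)).map c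
    -- representation of a simplex
    have hrep : ∀ l : Im a S c n, ∃ (u : V) (ss : List G), ss ∈ LL S n ∧
        l.1 = (u :: ss.map (a u)).map c := by
      intro l
      obtain ⟨h1, h2, l0, h3, h4⟩ := l.2
      cases l0 with
      | nil => rw [h4] at h1; exact absurd rfl h1
      | cons u t =>
        have h5 : ∀ t' : List V, (∀ x ∈ t', ∃ s ∈ S, x = a u s) → ∃ ss : List G,
            (∀ s ∈ ss, s ∈ S) ∧ t' = ss.map (a u) := by
          intro t'
          induction t' with
          | nil => intro _; exact ⟨[], by simp, rfl⟩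
          | cons x t' ih =>
            intro h
            obtain ⟨ss, hss, he⟩ := ih fun y hy => h y (by simp [hy])
            obtain ⟨s, hs, hx⟩ := h x (by simp)
            refine ⟨s :: ss, ?_, ?_⟩
            · intro y hy
              rw [List.mem_cons] at hy
              rcases hy with rfl | hy
              · exact hs
              · exact hss y hy
            · rw [List.map_cons, ← hx, ← he]
        obtain ⟨ss, hss, he⟩ := h5 t fun x hx => h3 u (by simp) x (by simp [hx])
        refine ⟨u, ss, ?_, ?_⟩
        · rw [mem_LL]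
          refine ⟨?_, hss⟩
          rw [h4, he] at h2
          simpa using h2
        · rw [h4, he]
    have hgood : ∀ l : Im a S c n, l.1 ∉ sing → ∀ v,
        (dV C a R' * hM C ψ a P R' S c n - hM C ψ a P R' S c n * eM a S c n) v l = 0 := by
      intro l hl v
      obtain ⟨u, ss, hss, he⟩ := hrep l
      have hu : u ∉ B := by
        intro hu
        apply hl
        rw [Finset.mem_image]
        exact ⟨(u, ss), by simp only [Finset.mem_product]; exact ⟨hu, hss⟩, he.symm⟩
      have hu1 : u ∈ Gd a R' := by
        by_contra h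
        apply hu
        simp only [B, B1, Finset.mem_union, Finset.mem_filter, Finset.mem_univ, true_and]
        exact Or.inl h
      have hu2 : c u ∈ Gdn a R' (n + 2) := by
        by_contra h
        apply hu
        simp only [B, B2, Finset.mem_union, Finset.mem_filter, Finset.mem_univ, true_and]
        exact Or.inr h
      rw [mem_LL] at hss
      choose q hq hcq using hc
      let g : G → G := fun s => (q u)⁻¹ * s * q (a u s)
      have hg : ∀ s ∈ S, c (a u s) = a (c u) (g s) := by
        intro s hs
        have h1 : g s ∈ R' := by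
          apply hR1
          apply hPR
          apply hP
          have h2 := hP0 (q u) (hq u) 1 h1S s (hSS s hs) (q (a u s)) (hq _)
          rw [inv_one, mul_one] at h2
          exact h2
        rw [hcq (a u s), hcq u, hu1.2.1 s (hR2 hs) _ (hR3 (hq _)),
          hu1.2.1 (q u) (hR3 (hq u)) (g s) h1]
        congr 1
        simp only [g]
        group
      have hl1 : l.1 = c u :: (ss.map g).map (a (c u)) := by
        rw [he, List.map_cons, List.map_map, List.map_map]
        congr 1
        apply List.map_congr_left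
        intro s hs
        exact hg s (hss.2 s hs)
      have hpair : ∀ x ∈ 1 :: ss.map g, ∀ y ∈ 1 :: ss.map g, x⁻¹ * y ∈ P := by
        have h1 : ∀ x ∈ 1 :: ss.map g, ∃ s ∈ S1, ∃ q' ∈ Q, x = (q u)⁻¹ * s * q' := by
          intro x hx
          rw [List.mem_cons] at hx
          rcases hx with rfl | hx
          · exact ⟨1, h1S, q u, hq u, by group⟩
          · rw [List.mem_map] at hx
            obtain ⟨s, hs, rfl⟩ := hx
            exact ⟨s, hSS s (hss.2 s hs), _, hq (a u s), rfl⟩
        intro x hx y hy
        obtain ⟨s, hs, q1, hq1, rfl⟩ := h1 x hx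
        obtain ⟨s', hs', q2, hq2, rfl⟩ := h1 y hy
        apply hP
        have h2 := hP0 q1 hq1 s hs s' hs' q2 hq2
        have h3 : ((q u)⁻¹ * s * q1)⁻¹ * ((q u)⁻¹ * s' * q2) = q1⁻¹ * s⁻¹ * s' * q2 := by group
        rw [h3]
        exact h2
      obtain ⟨_, h3⟩ := hRH R' hR1 V a hbij (c u) hu2 (ss.map g)
        (by rw [List.length_map]; exact hss.1.trans (Nat.le_succ n)) hpair
      rw [← hl1] at h3
      have h4 := h3 v
      rw [Matrix.sub_apply, Matrix.mul_apply, Matrix.mul_apply, sub_eq_zero]
      have h5 := sum_face hLs l (fun l' => hL C ψ a P R' l' v) rfl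
      simp only [hM]
      rw [h4, h5, lin, Finsupp.sum, Finsupp.finsetSum_apply, Finsupp.sum]
      apply Finset.sum_congr rfl
      intro l' _
      rfl
    let bad : Finset (Im a S c n) := Finset.univ.filter fun l => l.1 ∈ sing
    have hrk := rk_cols (cst (dV C a R' * hM C ψ a P R' S c n -
      hM C ψ a P R' S c n * eM a S c n)) bad ?_
    · refine hrk.trans ?_
      have h1 : bad.card ≤ sing.card := by
        apply Finset.card_le_card_of_injOn (fun l => l.1)
        · intro l hl
          simpa [bad] using hl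
        · intro l _ l2 _ h
          exact Subtype.ext h
      have h2 : sing.card ≤ B.card * (LL S n).card := by
        refine Finset.card_image_le.trans ?_
        rw [Finset.card_product]
      have h3 : B1.card = nb a R' := by
        unfold nb
        rw [← Set.ncard_coe_finset]
        congr 1
        ext u
        simp [B1]
      have hgn : (Finset.univ.filter fun u => u ∉ Gdn a R' (n + 2)).card ≤ MG * nb a R' := by
        have h5 := hMG V a hbij
        rw [← Set.ncard_coe_finset]
        refine le_trans (le_of_eq ?_) h5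
        congr 1
        ext u
        simp
      have h4 : B2.card ≤ Q.card * (MG * nb a R') := by
        have h6 : B2 ⊆ Q.biUnion fun q => Finset.univ.filter fun u =>
            a u q ∉ Gdn a R' (n + 2) := by
          intro u hu
          obtain ⟨q, hq, hcq⟩ := hc u
          simp only [B2, Finset.mem_filter, Finset.mem_univ, true_and] at hu
          rw [Finset.mem_biUnion]
          exact ⟨q, hq, by simpa [← hcq] using hu⟩
        refine (Finset.card_le_card h6).trans ?_
        refine Finset.card_biUnion_le.trans ?_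
        rw [← smul_eq_mul, ← Finset.sum_const]
        apply Finset.sum_le_sum
        intro q _
        refine le_trans ?_ hgn
        apply Finset.card_le_card_of_injOn (fun u => a u q)
        · intro u hu
          simpa using hu
        · intro u _ u' _ h
          exact (hbij q).1 h
      have h5 : B.card ≤ (1 + Q.card * MG) * nb a R' := by
        refine (Finset.card_union_le _ _).trans ?_
        rw [h3]
        calc nb a R' + B2.card ≤ nb a R' + Q.card * (MG * nb a R') := by gcongr
          _ = _ := by ring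
      calc bad.card ≤ B.card * (LL S n).card := h1.trans h2
        _ ≤ ((1 + Q.card * MG) * nb a R') * (LL S n).card := by gcongr
        _ = _ := by ring
    · intro l hl v
      have h1 : l.1 ∉ sing := by
        intro h
        apply hl
        simp [bad, h]
      simp only [cst, Matrix.map_apply, hgood l h1 v]
      simp

end Pool.Agent.LT.H55
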